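import Pool.Agent.DC26.Base

/-!
# Common neighbourhoods in double-critical graphs

In a double-critical graph with chromatic number `k` every edge is the common neighbourhood of
some `k - 2` vertices.  Hence at most `(|W| choose k - 2)` edges have all their common neighbours
in the set `W`, and `(k - 1) |U| ≤ (n - |U| choose k - 2)` for every independent set `U`.
-/

set_option autoImplicit false

open Finset Pool.Agent.DC26

namespace Pool.Agent.Results.MP_982fcc_co.CommonNeighbours

variable {V : Type}

/-- **Main theorem.** Let `G` be a double-critical graph with chromatic number `k` and `n`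
vertices.
(1) Let `u v` be an edge and `C` a `(k - 2)`-colouring of `G - u - v`. There are vertices
`f c`, one in each colour class `c`, such that the common neighbours of all the `f c` are exactly
`u` and `v`.
(2) For every set `W` of vertices at most `(|W| choose k - 2)` edges have all their common
neighbours in `W`.
(3) `(k - 1) |U| ≤ (n - |U| choose k - 2)` for every independent set `U`. -/
theorem result [Fintype V] (G : SimpleGraph V) (k : ℕ) (h : DoubleCritical G k) :
    (∀ u v : V, G.Adj u v → ∀ C : (G.induce ({u, v}ᶜ : Set V)).Coloring (Fin (k - 2)),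
      ∃ f : Fin (k - 2) → V, (∀ c, ∃ hz : f c ∈ ({u, v}ᶜ : Set V), C ⟨f c, hz⟩ = c) ∧
        ∀ z, (∀ c, G.Adj (f c) z) ↔ z = u ∨ z = v) ∧
    (∀ W : Finset V, {e : Sym2 V | e ∈ G.edgeSet ∧
      ∀ z, (∀ x ∈ e, G.Adj x z) → z ∈ W}.ncard ≤ W.card.choose (k - 2)) ∧
    (∀ U : Finset V, (∀ u ∈ U, ∀ v ∈ U, ¬ G.Adj u v) →
      (k - 1) * U.card ≤ (Fintype.card V - U.card).choose (k - 2)) := by
  classical
  refine ⟨fun u v huv C => exists_transversal h huv C, ?_, fun U hU => indep_bound h U hU⟩
  intro W
  have hrep : ∀ e : Sym2 V, ∃ p : V × V, s(p.1, p.2) = e := by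
    intro e
    induction e using Sym2.ind with
    | _ x y => exact ⟨(x, y), rfl⟩
  choose p hp using hrep
  have h1 := card_edges_le h
    (ι := ({e : Sym2 V | e ∈ G.edgeSet ∧ ∀ z, (∀ x ∈ e, G.Adj x z) → z ∈ W} : Set (Sym2 V)))
    (fun e => (p e.1).1) (fun e => (p e.1).2)
    (by
      rintro ⟨e, he⟩
      have h2 := he.1
      rw [← hp e, SimpleGraph.mem_edgeSet] at h2
      exact h2)
    (by
      rintro ⟨e, he⟩ ⟨f, hf⟩ hne heq
      apply hne
      apply Subtype.ext
      rw [hp e, hp f] at heq
      exact heq)
    W
    (by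
      rintro ⟨e, he⟩ z hz1 hz2
      apply he.2 z
      intro x hx
      rw [← hp e, Sym2.mem_iff] at hx
      rcases hx with rfl | rfl
      · exact hz1
      · exact hz2)
  rwa [← Nat.card_eq_fintype_card, Nat.card_coe_set_eq] at h1

end Pool.Agent.Results.MP_982fcc_co.CommonNeighbours
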