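import Mathlib

/-!
# Double-critical graphs have small fractional chromatic number

A connected finite graph `G` is double-critical if removing the two ends of any edge lowers the
chromatic number by exactly two. We show that pairwise disjoint edges of a double-critical graph
give multiple colourings of `G`, and that every double-critical graph `G` with
`χ_f(G) > χ(G) - 1` is complete.
-/

set_option autoImplicit false

open Finset

namespace Pool.Agent.Results.MP_982fcc_co.FractionalGap

variable {V : Type}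

/-- `G` is double-critical with chromatic number `k`. -/
def DoubleCritical (G : SimpleGraph V) (k : ℕ) : Prop :=
  G.Connected ∧ G.chromaticNumber = k ∧
    ∀ u v : V, G.Adj u v →
      (G.induce ({u, v}ᶜ : Set V)).chromaticNumber + 2 = G.chromaticNumber

/-- `G` has a `b`-fold colouring with `N` colours: every vertex gets a set of exactly `b`
colours and adjacent vertices get disjoint sets. -/
def FoldColorable (G : SimpleGraph V) (b N : ℕ) : Prop :=
  ∃ S : V → Finset (Fin N), (∀ v, (S v).card = b) ∧ ∀ u v, G.Adj u v → Disjoint (S u) (S v)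

theorem colorable_of_edge {G : SimpleGraph V} {k : ℕ} (h : DoubleCritical G k) {u v : V}
    (huv : G.Adj u v) : 2 ≤ k ∧ (G.induce ({u, v}ᶜ : Set V)).Colorable (k - 2) := by
  have h1 := h.2.2 u v huv
  rw [h.2.1] at h1
  have hfin : (G.induce ({u, v}ᶜ : Set V)).chromaticNumber ≠ ⊤ := by
    intro ht
    rw [ht] at h1
    exact absurd h1 (by simp)
  obtain ⟨n, hn⟩ := ENat.ne_top_iff_exists.1 hfin
  rw [← hn] at h1
  have h2 : n + 2 = k := by exact_mod_cast h1
  refine ⟨by omega, ?_⟩
  rw [← SimpleGraph.chromaticNumber_le_iff_colorable, ← hn]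
  have : n = k - 2 := by omega
  rw [this]

/-- Transport of a multiple colouring to `Fin N`. -/
theorem fold_of_type {G : SimpleGraph V} {b N : ℕ} {α : Type} [Fintype α] [DecidableEq α]
    (hα : Fintype.card α = N) (S : V → Finset α) (h1 : ∀ v, (S v).card = b)
    (h2 : ∀ u v, G.Adj u v → Disjoint (S u) (S v)) : FoldColorable G b N := by
  let e : α ≃ Fin N := Fintype.equivFinOfCardEq hα
  refine ⟨fun v => (S v).map e.toEmbedding, fun v => by rw [card_map, h1], fun u v huv => ?_⟩
  rw [disjoint_map]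
  exact h2 u v huv

/-- Disjoint edges give a multiple colouring. -/
theorem fold_of_matching {G : SimpleGraph V} {k : ℕ} (h : DoubleCritical G k) (b c : ℕ)
    (x y : Fin b → V) (hxy : ∀ i, G.Adj (x i) (y i))
    (hdis : ∀ i j, i ≠ j → x i ≠ x j ∧ x i ≠ y j ∧ y i ≠ x j ∧ y i ≠ y j)
    (hc : (G.induce {v | ∃ i, v = x i ∨ v = y i}).Colorable c) :
    FoldColorable G b (b * (k - 2) + c) := by
  classical
  obtain ⟨C0⟩ := hc
  have hC : ∀ i, Nonempty ((G.induce ({x i, y i}ᶜ : Set V)).Coloring (Fin (k - 2))) :=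
    fun i => (colorable_of_edge h (hxy i)).2
  let C := fun i => (hC i).some
  have hmem : ∀ v i, v ∉ ({x i, y i}ᶜ : Set V) → v = x i ∨ v = y i := by
    intro v i hv
    rw [Set.notMem_compl_iff] at hv
    exact hv
  let g : V → Fin b → (Fin b × Fin (k - 2)) ⊕ Fin c := fun v i =>
    if hv : v ∈ ({x i, y i}ᶜ : Set V) then Sum.inl (i, C i ⟨v, hv⟩)
    else Sum.inr (C0 ⟨v, ⟨i, hmem v i hv⟩⟩)
  have gpos : ∀ v i (hv : v ∈ ({x i, y i}ᶜ : Set V)), g v i = Sum.inl (i, C i ⟨v, hv⟩) :=
    fun v i hv => dif_pos hv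
  have gneg : ∀ v i (hv : v ∉ ({x i, y i}ᶜ : Set V)),
      g v i = Sum.inr (C0 ⟨v, ⟨i, hmem v i hv⟩⟩) := fun v i hv => dif_neg hv
  have huniq : ∀ v i j, v ∉ ({x i, y i}ᶜ : Set V) → v ∉ ({x j, y j}ᶜ : Set V) → i = j := by
    intro v i j hi hj
    by_contra hij
    obtain ⟨h1, h2, h3, h4⟩ := hdis i j hij
    rcases hmem v i hi with rfl | rfl <;> rcases hmem _ j hj with hj | hj
    · exact h1 hj
    · exact h2 hj
    · exact h3 hj
    · exact h4 hj
  apply fold_of_type (α := (Fin b × Fin (k - 2)) ⊕ Fin c) (by simp) (fun v => univ.image (g v))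
  · intro v
    rw [card_image_of_injective, card_univ, Fintype.card_fin]
    intro i j hij
    by_cases hi : v ∈ ({x i, y i}ᶜ : Set V) <;> by_cases hj : v ∈ ({x j, y j}ᶜ : Set V)
    · rw [gpos v i hi, gpos v j hj] at hij
      have h3 := Sum.inl.inj hij
      rw [Prod.mk.injEq] at h3
      exact h3.1
    · rw [gpos v i hi, gneg v j hj] at hij
      exact absurd hij (by simp)
    · rw [gneg v i hi, gpos v j hj] at hij
      exact absurd hij (by simp)
    · exact huniq v i j hi hj
  · intro u v huv
    rw [disjoint_left]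
    intro s hsu hsv
    obtain ⟨i, -, hi⟩ := mem_image.1 hsu
    obtain ⟨j, -, hj⟩ := mem_image.1 hsv
    rw [← hi] at hj
    by_cases hui : u ∈ ({x i, y i}ᶜ : Set V) <;> by_cases hvj : v ∈ ({x j, y j}ᶜ : Set V)
    · rw [gpos u i hui, gpos v j hvj] at hj
      have h3 := Sum.inl.inj hj
      rw [Prod.mk.injEq] at h3
      obtain ⟨rfl, h4⟩ := h3
      exact (C j).valid (v := ⟨u, hui⟩) (w := ⟨v, hvj⟩) huv h4.symm
    · rw [gpos u i hui, gneg v j hvj] at hj
      exact absurd hj (by simp)
    · rw [gneg u i hui, gpos v j hvj] at hj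
      exact absurd hj (by simp)
    · rw [gneg u i hui, gneg v j hvj] at hj
      exact C0.valid (v := ⟨u, _⟩) (w := ⟨v, _⟩) huv (Sum.inr.inj hj).symm

/-- Two disjoint edges whose four ends span a bipartite graph. -/
theorem fold_two {G : SimpleGraph V} {k : ℕ} (h : DoubleCritical G k) {x y z w : V}
    (hxy : G.Adj x y) (hzw : G.Adj z w) (h1 : x ≠ z) (h2 : x ≠ w) (h3 : y ≠ z) (h4 : y ≠ w)
    (hxz : ¬ G.Adj x z) (hyw : ¬ G.Adj y w) : FoldColorable G 2 (2 * (k - 2) + 2) := by
  classical
  apply fold_of_matching h 2 2 ![x, z] ![y, w]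
  · intro i
    fin_cases i
    · exact hxy
    · exact hzw
  · intro i j hij
    fin_cases i <;> fin_cases j
    · exact absurd rfl hij
    · exact ⟨h1, h2, h3, h4⟩
    · exact ⟨h1.symm, h3.symm, h2.symm, h4.symm⟩
    · exact absurd rfl hij
  · refine ⟨SimpleGraph.Coloring.mk (fun v => if v.1 = x ∨ v.1 = z then 0 else 1) ?_⟩
    rintro ⟨u, hu⟩ ⟨v, hv⟩ huv
    have huv' : G.Adj u v := huv
    have hu' : u = x ∨ u = y ∨ u = z ∨ u = w := by
      obtain ⟨i, hi⟩ := hu
      fin_cases i
      · rcases hi with hi | hi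
        · exact Or.inl hi
        · exact Or.inr (Or.inl hi)
      · rcases hi with hi | hi
        · exact Or.inr (Or.inr (Or.inl hi))
        · exact Or.inr (Or.inr (Or.inr hi))
    have hv' : v = x ∨ v = y ∨ v = z ∨ v = w := by
      obtain ⟨i, hi⟩ := hv
      fin_cases i
      · rcases hi with hi | hi
        · exact Or.inl hi
        · exact Or.inr (Or.inl hi)
      · rcases hi with hi | hi
        · exact Or.inr (Or.inr (Or.inl hi))
        · exact Or.inr (Or.inr (Or.inr hi))
    by_cases hu0 : u = x ∨ u = z <;> by_cases hv0 : v = x ∨ v = z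
    · exfalso
      rcases hu0 with rfl | rfl <;> rcases hv0 with rfl | rfl
      · exact G.loopless.irrefl _ huv'
      · exact hxz huv'
      · exact hxz huv'.symm
      · exact G.loopless.irrefl _ huv'
    · simp only [if_pos hu0, if_neg hv0]
      decide
    · simp only [if_neg hu0, if_pos hv0]
      decide
    · exfalso
      have hu1 : u = y ∨ u = w := by tauto
      have hv1 : v = y ∨ v = w := by tauto
      rcases hu1 with rfl | rfl <;> rcases hv1 with rfl | rfl
      · exact G.loopless.irrefl _ huv'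
      · exact hyw huv'
      · exact hyw huv'.symm
      · exact G.loopless.irrefl _ huv'

/-- A double-critical graph which is not complete contains two disjoint edges whose four ends
span a bipartite graph. -/
theorem exists_two [Fintype V] {G : SimpleGraph V} {k : ℕ} (h : DoubleCritical G k) (hG : G ≠ ⊤) :
    ∃ x y z w : V, G.Adj x y ∧ G.Adj z w ∧ x ≠ z ∧ x ≠ w ∧ y ≠ z ∧ y ≠ w ∧
      ¬ G.Adj x z ∧ ¬ G.Adj y w := by
  classical
  by_contra hcon
  push Not at hcon
  obtain ⟨Q, hQ⟩ := G.exists_isNClique_cliqueNum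
  have hQc : G.IsClique ↑Q := hQ.isClique
  have hmax : ∀ t : Finset V, G.IsClique ↑t → t.card ≤ Q.card := by
    intro t ht
    rw [hQ.card_eq]
    exact SimpleGraph.IsClique.card_le_cliqueNum (tc := ht)
  -- every vertex outside has a non-neighbour inside
  have hnon : ∀ v, v ∉ Q → ∃ q ∈ Q, ¬ G.Adj v q := by
    intro v hv
    by_contra hc
    push Not at hc
    have h1 : G.IsClique ↑(insert v Q) := by
      rw [coe_insert, SimpleGraph.isClique_insert]
      exact ⟨hQc, fun q hq _ => hc q hq⟩
    have h2 := hmax _ h1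
    rw [card_insert_of_notMem hv] at h2
    omega
  -- the outside is independent
  have hind : ∀ x, x ∉ Q → ∀ y, y ∉ Q → ¬ G.Adj x y := by
    intro x hx y hy hxy
    obtain ⟨q, hq, hxq⟩ := hnon x hx
    have hall : ∀ q2 ∈ Q, ¬ G.Adj y q2 → q2 = q := by
      intro q2 hq2 hyq2
      by_contra hne
      have h1 : G.Adj q q2 := hQc hq hq2 (fun h => hne h.symm)
      exact hyq2 (hcon x y q q2 hxy h1 (fun h => hx (h ▸ hq)) (fun h => hx (h ▸ hq2))
        (fun h => hy (h ▸ hq)) (fun h => hy (h ▸ hq2)) hxq)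
    obtain ⟨q', hq', hyq'⟩ := hnon y hy
    have hqq : q' = q := hall q' hq' hyq'
    have hall2 : ∀ q2 ∈ Q, ¬ G.Adj x q2 → q2 = q := by
      intro q2 hq2 hxq2
      by_contra hne
      have h1 : G.Adj q2 q := hQc hq2 hq hne
      rw [hqq] at hyq'
      exact hyq' (hcon x y q2 q hxy h1 (fun h => hx (h ▸ hq2)) (fun h => hx (h ▸ hq))
        (fun h => hy (h ▸ hq2)) (fun h => hy (h ▸ hq)) hxq2)
    have h2 : G.IsClique ↑(insert x (insert y (Q.erase q))) := by
      rw [coe_insert, coe_insert, SimpleGraph.isClique_insert, SimpleGraph.isClique_insert]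
      refine ⟨⟨hQc.subset (by simp), ?_⟩, ?_⟩
      · intro q2 hq2 _
        have hq2' := mem_erase.1 hq2
        by_contra hc
        exact hq2'.1 (hall q2 hq2'.2 hc)
      · intro q2 hq2 _
        rcases hq2 with rfl | hq2
        · exact hxy
        · have hq2' := mem_erase.1 hq2
          by_contra hc
          exact hq2'.1 (hall2 q2 hq2'.2 hc)
    have h3 := hmax _ h2
    have h4 : y ∉ Q.erase q := fun h => hy (mem_of_mem_erase h)
    have h5 : x ∉ insert y (Q.erase q) := by
      rw [mem_insert, not_or]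
      exact ⟨hxy.ne, fun h => hx (mem_of_mem_erase h)⟩
    rw [card_insert_of_notMem h5, card_insert_of_notMem h4, card_erase_of_mem hq] at h3
    have : 0 < Q.card := card_pos.2 ⟨q, hq⟩
    omega
  -- a colouring by the clique
  have hcol : k ≤ Q.card := by
    choose! f hfQ hfn using hnon
    have hfold : G.Colorable (Fintype.card Q) := by
      refine SimpleGraph.Coloring.colorable (α := Q) (SimpleGraph.Coloring.mk
        (fun v => if hv : v ∈ Q then ⟨v, hv⟩ else ⟨f v, hfQ v hv⟩) ?_)
      intro u v huv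
      by_cases hu : u ∈ Q <;> by_cases hv : v ∈ Q
      · simp only [dif_pos hu, dif_pos hv]
        intro he
        exact huv.ne (Subtype.mk.inj he)
      · simp only [dif_pos hu, dif_neg hv]
        intro he
        have he' : u = f v := Subtype.mk.inj he
        exact hfn v hv (he' ▸ huv.symm)
      · simp only [dif_neg hu, dif_pos hv]
        intro he
        have he' : f u = v := Subtype.mk.inj he
        exact hfn u hu (he' ▸ huv)
      · exact absurd huv (hind u hu v hv)
    rw [← SimpleGraph.chromaticNumber_le_iff_colorable, h.2.1, Fintype.card_coe] at hfold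
    exact_mod_cast hfold
  -- the clique is everything
  have hQuniv : ∀ z, z ∈ Q := by
    intro z
    by_contra hz
    have hV : ∃ y, G.Adj z y := by
      obtain ⟨q, hq, hzq⟩ := hnon z hz
      have hne : z ≠ q := fun h => hz (h ▸ hq)
      obtain ⟨p⟩ := h.1.preconnected z q
      cases p with
      | nil => exact absurd rfl hne
      | cons hadj _ => exact ⟨_, hadj⟩
    obtain ⟨y, hy⟩ := hV
    have hyQ : y ∈ Q := by
      by_contra hyQ
      exact hind z hz y hyQ hy
    obtain ⟨hk2, ⟨C⟩⟩ := colorable_of_edge h hy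
    let s : Finset ({z, y}ᶜ : Set V) := (Q.erase y).subtype (fun v => v ∈ ({z, y}ᶜ : Set V))
    have hs : s.card = Q.card - 1 := by
      rw [card_subtype, filter_true_of_mem, card_erase_of_mem hyQ]
      intro v hv
      have hv' := mem_erase.1 hv
      rintro (h1 | h1)
      · exact hz (h1 ▸ hv'.2)
      · exact hv'.1 h1
    have hclique : (G.induce ({z, y}ᶜ : Set V)).IsClique ↑s := by
      intro a ha b hb hab
      have ha' := (mem_erase.1 (mem_subtype.1 ha)).2
      have hb' := (mem_erase.1 (mem_subtype.1 hb)).2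
      exact hQc ha' hb' (fun h => hab (Subtype.ext h))
    have h6 := hclique.card_le_chromaticNumber
    have h7 : (G.induce ({z, y}ᶜ : Set V)).chromaticNumber ≤ (k - 2 : ℕ) :=
      SimpleGraph.chromaticNumber_le_iff_colorable.2 ⟨C⟩
    have h8 : (s.card : ℕ∞) ≤ (k - 2 : ℕ) := h6.trans h7
    have h9 : s.card ≤ k - 2 := by exact_mod_cast h8
    omega
  apply hG
  ext u v
  rw [SimpleGraph.top_adj]
  exact ⟨fun h => h.ne, fun hne => hQc (hQuniv u) (hQuniv v) hne⟩

/-- A multiple colouring bounds the total weight. -/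
theorem weight_le [Fintype V] {G : SimpleGraph V} {b N : ℕ} (h : FoldColorable G b N) (w : V → ℝ)
    (hw : ∀ I : Finset V, (∀ u ∈ I, ∀ v ∈ I, ¬ G.Adj u v) → ∑ v ∈ I, w v ≤ 1) :
    (b : ℝ) * ∑ v, w v ≤ N := by
  classical
  obtain ⟨S, hS1, hS2⟩ := h
  calc (b : ℝ) * ∑ v, w v = ∑ v, ∑ _a ∈ S v, w v := by
        rw [mul_sum]
        refine sum_congr rfl fun v _ => ?_
        rw [sum_const, hS1, nsmul_eq_mul]
    _ = ∑ v, ∑ a : Fin N, if a ∈ S v then w v else 0 := by
        refine sum_congr rfl fun v _ => ?_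
        rw [← sum_filter]
        congr 1
        ext a
        simp
    _ = ∑ a : Fin N, ∑ v, if a ∈ S v then w v else 0 := sum_comm
    _ ≤ ∑ _a : Fin N, (1 : ℝ) := by
        refine sum_le_sum fun a _ => ?_
        rw [← sum_filter]
        apply hw
        intro u hu v hv huv
        have hu' := (mem_filter.1 hu).2
        have hv' := (mem_filter.1 hv).2
        exact disjoint_left.1 (hS2 u v huv) hu' hv'
    _ = N := by simp

/-- **Main theorem.** Let `G` be a double-critical graph with chromatic number `k`.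
(1) If `G` has `b` pairwise disjoint edges whose ends span a `c`-colourable graph, then `G` has a
`b`-fold colouring with `b (k - 2) + c` colours.
(2) If `G` is not complete, it has a `2`-fold colouring with `2 k - 2` colours.
(3) If there are nonnegative weights of total more than `k - 1` such that every independent set
has weight at most one (that is, `χ_f(G) > k - 1`), then `G` is complete.
(4) If all independent sets have at most `a` vertices and `(k - 1) a < |V|`, then `G` is
complete. -/
theorem result [Fintype V] (G : SimpleGraph V) (k : ℕ) (h : DoubleCritical G k) :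
    (∀ (b c : ℕ) (x y : Fin b → V), (∀ i, G.Adj (x i) (y i)) →
      (∀ i j, i ≠ j → x i ≠ x j ∧ x i ≠ y j ∧ y i ≠ x j ∧ y i ≠ y j) →
      (G.induce {v | ∃ i, v = x i ∨ v = y i}).Colorable c →
      FoldColorable G b (b * (k - 2) + c)) ∧
    (G ≠ ⊤ → FoldColorable G 2 (2 * k - 2)) ∧
    (∀ w : V → ℝ, (∀ v, 0 ≤ w v) →
      (∀ I : Finset V, (∀ u ∈ I, ∀ v ∈ I, ¬ G.Adj u v) → ∑ v ∈ I, w v ≤ 1) →
      (k : ℝ) - 1 < ∑ v, w v → G = ⊤) ∧
    (∀ a : ℕ, (∀ I : Finset V, (∀ u ∈ I, ∀ v ∈ I, ¬ G.Adj u v) → I.card ≤ a) →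
      (k - 1) * a < Fintype.card V → G = ⊤) := by
  have h2 : G ≠ ⊤ → FoldColorable G 2 (2 * k - 2) := by
    intro hG
    obtain ⟨x, y, z, w, hxy, hzw, h1, h2, h3, h4, hxz, hyw⟩ := exists_two h hG
    have hk := (colorable_of_edge h hxy).1
    have h5 := fold_two h hxy hzw h1 h2 h3 h4 hxz hyw
    have h6 : 2 * (k - 2) + 2 = 2 * k - 2 := by omega
    rwa [h6] at h5
  have h3 : ∀ w : V → ℝ,
      (∀ I : Finset V, (∀ u ∈ I, ∀ v ∈ I, ¬ G.Adj u v) → ∑ v ∈ I, w v ≤ 1) →
      (k : ℝ) - 1 < ∑ v, w v → G = ⊤ := by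
    intro w hw hsum
    by_contra hG
    obtain ⟨x, y, z, w', hxy, -⟩ := exists_two h hG
    have hk := (colorable_of_edge h hxy).1
    have h4 := weight_le (h2 hG) w hw
    have h5 : ((2 * k - 2 : ℕ) : ℝ) = 2 * k - 2 := by
      rw [Nat.cast_sub (by omega)]
      push_cast
      ring
    rw [h5] at h4
    push_cast at h4
    linarith
  refine ⟨fun b c x y hxy hdis hc => fold_of_matching h b c x y hxy hdis hc, h2,
    fun w _ hw hsum => h3 w hw hsum, ?_⟩
  intro a ha hlt
  by_contra hG
  obtain ⟨x, y, z, w', hxy, -⟩ := exists_two h hG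
  have hk := (colorable_of_edge h hxy).1
  have ha0 : 0 < a := by
    have := ha {x} (by
      intro u hu v hv
      rw [mem_singleton] at hu hv
      rw [hu, hv]
      exact G.loopless.irrefl x)
    rw [card_singleton] at this
    omega
  have ha' : (0 : ℝ) < a := by exact_mod_cast ha0
  apply hG
  apply h3 (fun _ => (1 : ℝ) / a)
  · intro I hI
    rw [sum_const, nsmul_eq_mul, mul_one_div, div_le_one ha']
    exact_mod_cast ha I hI
  · rw [sum_const, nsmul_eq_mul, mul_one_div, lt_div_iff₀ ha', card_univ]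
    have h6 : (((k - 1 : ℕ) : ℝ)) * a < Fintype.card V := by exact_mod_cast hlt
    rw [Nat.cast_sub (by omega)] at h6
    push_cast at h6
    exact h6

end Pool.Agent.Results.MP_982fcc_co.FractionalGap
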