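import Pool.Agent.DC26.Base

/-!
# Double-critical graphs with many vertices

A double-critical graph with chromatic number `k` and many vertices has many disjoint edges, and
its fractional chromatic number is at most `k - 2 + 4 k n ^ (-1 / (k - 2))`.
-/

set_option autoImplicit false

open Finset Pool.Agent.DC26

namespace Pool.Agent.Results.MP_982fcc_co.ManyVertices

variable {V : Type}

/-- Many disjoint edges. -/
theorem exists_matching [Fintype V] {G : SimpleGraph V} {k : ℕ} (h : DoubleCritical G k) (b : ℕ)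
    (hb : (2 * b).choose (k - 2) < (k - 1) * (Fintype.card V - 2 * b)) :
    ∀ m, m ≤ b + 1 → ∃ x y : Fin m → V, (∀ i, G.Adj (x i) (y i)) ∧
      (∀ i j, i ≠ j → x i ≠ x j ∧ x i ≠ y j ∧ y i ≠ x j ∧ y i ≠ y j) := by
  classical
  intro m
  induction m with
  | zero =>
    intro _
    exact ⟨Fin.elim0, Fin.elim0, fun i => i.elim0, fun i => i.elim0⟩
  | succ m ih =>
    intro hm
    obtain ⟨x, y, hxy, hdis⟩ := ih (by omega)
    let W : Finset V := univ.image x ∪ univ.image y
    have hWcard : W.card ≤ 2 * b := by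
      have h1 : (univ.image x).card ≤ m := by
        have := card_image_le (s := (univ : Finset (Fin m))) (f := x)
        rwa [card_univ, Fintype.card_fin] at this
      have h2 : (univ.image y).card ≤ m := by
        have := card_image_le (s := (univ : Finset (Fin m))) (f := y)
        rwa [card_univ, Fintype.card_fin] at this
      have h3 : W.card ≤ (univ.image x).card + (univ.image y).card := card_union_le _ _
      omega
    by_cases hind : ∀ u ∈ Wᶜ, ∀ v ∈ Wᶜ, ¬ G.Adj u v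
    · exfalso
      have h1 := indep_bound h Wᶜ hind
      have h2 : (Wᶜ).card = Fintype.card V - W.card := card_compl W
      have h3 : W.card ≤ Fintype.card V := card_le_univ W
      have h4 : Fintype.card V - (Wᶜ).card = W.card := by omega
      rw [h4] at h1
      have h5 : W.card.choose (k - 2) ≤ (2 * b).choose (k - 2) := Nat.choose_le_choose _ hWcard
      have h6 : (k - 1) * (Fintype.card V - 2 * b) ≤ (k - 1) * (Wᶜ).card :=
        Nat.mul_le_mul le_rfl (by omega)
      omega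
    · push Not at hind
      obtain ⟨u, hu, v, hv, huv⟩ := hind
      rw [mem_compl] at hu hv
      have hux : ∀ i, x i ≠ u := fun i hi =>
        hu (hi ▸ mem_union_left _ (mem_image_of_mem _ (mem_univ _)))
      have huy : ∀ i, y i ≠ u := fun i hi =>
        hu (hi ▸ mem_union_right _ (mem_image_of_mem _ (mem_univ _)))
      have hvx : ∀ i, x i ≠ v := fun i hi =>
        hv (hi ▸ mem_union_left _ (mem_image_of_mem _ (mem_univ _)))
      have hvy : ∀ i, y i ≠ v := fun i hi =>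
        hv (hi ▸ mem_union_right _ (mem_image_of_mem _ (mem_univ _)))
      refine ⟨Fin.cons u x, Fin.cons v y, ?_, ?_⟩
      · intro i
        refine Fin.cases ?_ (fun i => ?_) i
        · exact huv
        · exact hxy i
      · intro i j
        refine Fin.cases ?_ (fun i => ?_) i <;> refine Fin.cases ?_ (fun j => ?_) j
        · intro hne
          exact absurd rfl hne
        · intro _
          exact ⟨(hux j).symm, (huy j).symm, (hvx j).symm, (hvy j).symm⟩
        · intro _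
          exact ⟨hux i, hvx i, huy i, hvy i⟩
        · intro hne
          exact hdis i j (fun hij => hne (by rw [hij]))

/-- Multiple colourings from many vertices. -/
theorem fold_many [Fintype V] {G : SimpleGraph V} {k : ℕ} (h : DoubleCritical G k) (b : ℕ)
    (hb : (2 * b).choose (k - 2) < (k - 1) * (Fintype.card V - 2 * b)) :
    FoldColorable G (b + 1) ((b + 1) * (k - 2) + k) := by
  obtain ⟨x, y, hxy, hdis⟩ := exists_matching h b hb (b + 1) le_rfl
  have hG : G.Colorable k := SimpleGraph.chromaticNumber_le_iff_colorable.1 h.2.1.le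
  obtain ⟨C⟩ := hG
  refine fold_of_matching h (b + 1) k x y hxy hdis ⟨SimpleGraph.Coloring.mk (fun v => C v.1) ?_⟩
  intro u v huv
  exact C.valid huv

/-- The fractional chromatic number of a double-critical graph. -/
theorem weight_bound [Fintype V] {G : SimpleGraph V} {k : ℕ} (h : DoubleCritical G k)
    (hk : 3 ≤ k) (w : V → ℝ)
    (hw : ∀ I : Finset V, (∀ u ∈ I, ∀ v ∈ I, ¬ G.Adj u v) → ∑ v ∈ I, w v ≤ 1) :
    ∑ v, w v ≤ (k : ℝ) - 2 + 4 * k / (Fintype.card V : ℝ) ^ ((1 : ℝ) / ((k : ℝ) - 2)) := by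
  have hne : Nonempty V := h.1.nonempty
  have hn : 0 < Fintype.card V := Fintype.card_pos
  obtain ⟨d, rfl⟩ : ∃ d, k = d + 2 := ⟨k - 2, by omega⟩
  have hd : d ≠ 0 := by omega
  have hd0 : (0 : ℝ) < d := by exact_mod_cast Nat.pos_of_ne_zero hd
  have hd1 : (1 : ℝ) ≤ d := by exact_mod_cast Nat.pos_of_ne_zero hd
  have hexp : (1 : ℝ) / (((d + 2 : ℕ) : ℝ) - 2) = ((d : ℝ))⁻¹ := by
    push_cast
    rw [one_div]
    congr 1
    ring
  rw [hexp]
  have hN : (0 : ℝ) < Fintype.card V := by exact_mod_cast hn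
  obtain ⟨R, hR⟩ : ∃ R : ℝ, R = ((Fintype.card V : ℝ)) ^ ((d : ℝ))⁻¹ := ⟨_, rfl⟩
  obtain ⟨Y, hY⟩ : ∃ Y : ℝ, Y = ((Fintype.card V : ℝ) / 2) ^ ((d : ℝ))⁻¹ := ⟨_, rfl⟩
  rw [← hR]
  have hR0 : 0 < R := by
    rw [hR]
    exact Real.rpow_pos_of_pos hN _
  have hY0 : 0 < Y := by
    rw [hY]
    exact Real.rpow_pos_of_pos (by linarith) _
  have hYd : Y ^ d = (Fintype.card V : ℝ) / 2 := by
    rw [hY]
    exact Real.rpow_inv_natCast_pow (by linarith) hd
  have hRY : R ≤ 2 * Y := by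
    have h1 : Y = R / (2 : ℝ) ^ ((d : ℝ))⁻¹ := by
      rw [hY, hR]
      exact Real.div_rpow hN.le (by norm_num) _
    have h2 : (2 : ℝ) ^ ((d : ℝ))⁻¹ ≤ 2 := by
      have h3 : (2 : ℝ) ^ ((d : ℝ))⁻¹ ≤ (2 : ℝ) ^ (1 : ℝ) :=
        Real.rpow_le_rpow_of_exponent_le (by norm_num) (inv_le_one_of_one_le₀ hd1)
      rwa [Real.rpow_one] at h3
    have h4 : 0 < (2 : ℝ) ^ ((d : ℝ))⁻¹ := Real.rpow_pos_of_pos (by norm_num) _
    rw [h1, mul_div_assoc', le_div_iff₀ h4]
    nlinarith
  -- the number of disjoint edges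
  obtain ⟨b, hb1, hb2⟩ : ∃ b : ℕ, (b : ℝ) < Y / 2 ∧ Y / 2 ≤ (b : ℝ) + 1 := by
    have h1 : 0 < ⌈Y / 2⌉₊ := Nat.ceil_pos.2 (by linarith)
    refine ⟨⌈Y / 2⌉₊ - 1, ?_, ?_⟩
    · exact Nat.lt_ceil.1 (by omega)
    · have h2 : ((⌈Y / 2⌉₊ - 1 : ℕ) : ℝ) + 1 = (⌈Y / 2⌉₊ : ℝ) := by
        have h3 : ⌈Y / 2⌉₊ - 1 + 1 = ⌈Y / 2⌉₊ := by omega
        exact_mod_cast h3
      rw [h2]
      exact Nat.le_ceil _
  have hpow : 2 * (2 * b) ^ d < Fintype.card V := by
    have h1 : ((2 * b : ℕ) : ℝ) ^ d < Y ^ d := by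
      apply pow_lt_pow_left₀ _ (by positivity) hd
      push_cast
      linarith
    rw [hYd] at h1
    have h2 : (2 : ℝ) * ((2 * b : ℕ) : ℝ) ^ d < Fintype.card V := by linarith
    exact_mod_cast h2
  have hchoose : (2 * b).choose (d + 2 - 2) < (d + 2 - 1) * (Fintype.card V - 2 * b) := by
    have h1 : (2 * b).choose d ≤ (2 * b) ^ d := Nat.choose_le_pow _ _
    have h2 : 2 * b ≤ (2 * b) ^ d := Nat.le_self_pow hd _
    have h3 : d + 2 - 2 = d := by omega
    have h4 : Fintype.card V - 2 * b ≤ (d + 2 - 1) * (Fintype.card V - 2 * b) :=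
      Nat.le_mul_of_pos_left _ (by omega)
    rw [h3]
    omega
  have h5 := weight_le (fold_many h b hchoose) w hw
  have h6 : (((b + 1) * (d + 2 - 2) + (d + 2) : ℕ) : ℝ) = ((b : ℝ) + 1) * d + (d + 2) := by
    have : d + 2 - 2 = d := by omega
    rw [this]
    push_cast
    ring
  rw [h6] at h5
  push_cast at h5 ⊢
  have hb0 : (0 : ℝ) < (b : ℝ) + 1 := by positivity
  have h7 : ∑ v, w v ≤ d + (d + 2) / ((b : ℝ) + 1) := by
    have h8 : (d : ℝ) + (d + 2) / ((b : ℝ) + 1) = (((b : ℝ) + 1) * d + (d + 2)) / ((b : ℝ) + 1) := by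
      field_simp
    rw [h8, le_div_iff₀ hb0]
    linarith
  have h9 : ((d : ℝ) + 2) / ((b : ℝ) + 1) ≤ 4 * ((d : ℝ) + 2) / R := by
    rw [div_le_div_iff₀ hb0 hR0]
    have h10 : R ≤ 4 * ((b : ℝ) + 1) := by linarith
    nlinarith
  linarith

/-- **Main theorem.** Let `G` be a double-critical graph with chromatic number `k` and `n`
vertices.
(1) If `(2 b choose k - 2) < (k - 1) (n - 2 b)`, then `G` has `b + 1` pairwise disjoint edges and
a `(b + 1)`-fold colouring with `(b + 1) (k - 2) + k` colours.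
(2) If `k ≥ 3`, weights for which every independent set has weight at most one have total at most
`k - 2 + 4 k / n ^ (1 / (k - 2))` (that is, `χ_f(G)` is at most this number). -/
theorem result [Fintype V] (G : SimpleGraph V) (k : ℕ) (h : DoubleCritical G k) :
    (∀ b : ℕ, (2 * b).choose (k - 2) < (k - 1) * (Fintype.card V - 2 * b) →
      (∃ x y : Fin (b + 1) → V, (∀ i, G.Adj (x i) (y i)) ∧
        (∀ i j, i ≠ j → x i ≠ x j ∧ x i ≠ y j ∧ y i ≠ x j ∧ y i ≠ y j)) ∧
      FoldColorable G (b + 1) ((b + 1) * (k - 2) + k)) ∧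
    (3 ≤ k → ∀ w : V → ℝ,
      (∀ I : Finset V, (∀ u ∈ I, ∀ v ∈ I, ¬ G.Adj u v) → ∑ v ∈ I, w v ≤ 1) →
      ∑ v, w v ≤ (k : ℝ) - 2 + 4 * k / (Fintype.card V : ℝ) ^ ((1 : ℝ) / ((k : ℝ) - 2))) :=
  ⟨fun b hb => ⟨exists_matching h b hb (b + 1) le_rfl, fold_many h b hb⟩,
    fun hk w hw => weight_bound h hk w hw⟩

end Pool.Agent.Results.MP_982fcc_co.ManyVertices
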